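import Pool.Agent.Helper3K.Resid

/-!
# The alternating sums of Alperin's weight conjecture vanish or fill all residue classes

Let `p` be a prime and `O` a valuation ring of `ℂ` whose maximal ideal contains `p`; `p`-blocks, defect
groups and block induction are defined by central characters modulo the maximal ideal of `O`. For a block
`B` of a finite group `G` with `O_p(G) = 1` let `S(B) = ∑_σ (-1)^|σ| k(B_σ)` be the alternating sum of Q1.

If one sum `S(B)` is not zero, then the values `S` of the blocks of the groups obtained from `G` by direct
products and wreath products with cyclic groups of prime order `l ≠ p` fill every residue class modulo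
every integer `m` prime to `p`, by arbitrarily large numbers; with wreath products with `C_p` too, they
fill all classes modulo the powers of `p`.

Proof. `S(B ⊗ C) = S(B) S(C)`; above `B ⊗ ⋯ ⊗ B` there is exactly one block `b` of `G ≀ C_l`, and
`l S(b) = S(B)^l + (l² - 1) S(B)` if `l ≠ p`, `p S(b) = S(B)^p - S(B)` if `l = p`. So the set `U` of the
positive values is closed under products and under `x ↦ P_l(x) = (x^l - x)/l + l x` (`l ≠ p`), and it is
not empty (`S(B)² > 0`).
(i) `U` contains numbers prime to `m`: the primes `q ≠ p` are removed one after the other. `P_q` lowers the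
exponent of `q` in `x` and keeps `x` prime to the smaller primes `s` if `x ≡ 1 mod s` for all of them. This
is reached by descending induction on `s`: by Dirichlet's theorem there is a large prime `l` with
`l ≡ x⁻¹ mod s`, `l ≡ 2 mod q` and `l ≡ 1` modulo the part prime to `s` of `(q-1)!`; then `P_l(x) ≡ l x`
modulo the primes up to `s`, `P_l(x) ≡ l` modulo those above `s`, and the exponent of `q` is unchanged.
(ii) Hence `U` contains `y ≡ 1 mod l m`, and `P_l(y) ≡ l mod m`, `P_l(y) ≥ l`. The products of such values
over the prime factors of a large `n ≡ a mod m` with `n ≡ 1 mod p` are in the class of `a`.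
(iii) For the powers of `p`: `x ↦ (x^p - x)/p` removes the factors `p`, the argument (ii) gives all units,
and `w ↦ ((1 + p w)^p - (1 + p w))/p` is onto modulo `p^k`.
-/

set_option autoImplicit false

noncomputable section

namespace Pool.Agent.Results.MP_6a3f1a_al.AllResidueClasses

open Pool.Agent.Y63.KR (alternatingSum)
open Pool.Agent.Q90.WR (IndS AdmB)
open Pool.Agent.N85.WM (Wr)

/-- The alternating sum `∑_σ (-1)^|σ| k(B_σ)` over representatives `σ` of the `G`-classes of chains of
nontrivial `p`-subgroups of `G`, the empty chain included; `k(B_σ)` is the number of the irreducible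
characters `θ` of `G_σ` with `bl(θ)^G = B`. This is the sum of Q1 if `O_p(G) = 1`. -/
def S (p : ℕ) (O : ValuationSubring ℂ) {G : Type} [Group G] (B : Set (G → ℂ)) : ℤ :=
  alternatingSum p G (fun H => (Nat.card {θ : H → ℂ // θ ∈ IndS O B (Subtype.val : H → G)} : ℤ))

/-- **One missing residue class implies the alternating-sum form of Alperin's weight conjecture.**
Let `p` be a prime and `X` a class of groups (for example all groups) which is closed under direct
products and under `G ↦ G ≀ C_q` for all primes `q`. `AdmB p O G B` says that `G` is a finite group with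
`O_p(G) = 1` and `B` a `p`-block of `G` with a nontrivial defect group. Then `S(B) = 0` for all `B` with
`AdmB p O G B`, `G` in `X`, if and only if there are an integer `m ≥ 1` which is prime to `p` or a power
of `p` and integers `a`, `N` such that no `S(B) > N` is congruent to `a` modulo `m`. So either all the
sums are zero or they lie in all residue classes modulo these `m`, by arbitrarily large numbers. -/
theorem result (p : ℕ) [Fact p.Prime] (O : ValuationSubring ℂ) (hpO : (p : ℂ) ∈ O.nonunits)
    (X : (G : Type) → Group G → Prop)
    (hX2 : ∀ (G : Type) [i : Group G] (H : Type) [j : Group H], X G i → X H j →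
      X (G × H) inferInstance)
    (hX : ∀ (q : ℕ) [Fact q.Prime] (G : Type) [i : Group G], X G i → X (Wr q G) inferInstance) :
    (∀ (G : Type) [i : Group G] (B : Set (G → ℂ)), X G i → AdmB p O G B → S p O B = 0) ↔
      ∃ m : ℕ, 0 < m ∧ (m.Coprime p ∨ ∃ k : ℕ, m = p ^ k) ∧ ∃ a N : ℤ,
        ∀ (G : Type) [i : Group G] (B : Set (G → ℂ)), X G i → AdmB p O G B →
          N < S p O B → ¬ S p O B ≡ a [ZMOD m] := by
  refine ⟨fun h => ⟨1, one_pos, Or.inl (Nat.coprime_one_left p), 0, 0, ?_⟩, ?_⟩
  · intro G _ B h1 h2 h3
    rw [h G B h1 h2] at h3
    exact absurd h3 (lt_irrefl 0)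
  · rintro ⟨m, hm0, hm | ⟨k, rfl⟩, a, N, h⟩ G i B h1 h2
    · by_contra h3
      obtain ⟨H, j, C, k1, k2, k3, k4⟩ := Pool.Agent.Helper3K.resid hpO hX2
        (fun q _ _ G _ hG => hX q G hG) ⟨G, i, B, h1, h2, h3⟩ m hm hm0 a N
      exact h H C k1 k2 k3 k4
    · by_contra h3
      obtain ⟨H, j, C, k1, k2, k3, k4⟩ := Pool.Agent.Helper3K.resid_p hpO hX2
        (fun q _ G _ hG => hX q G hG) ⟨G, i, B, h1, h2, h3⟩ k a N
      refine h H C k1 k2 k3 ?_
      rw [Nat.cast_pow]
      exact k4

end Pool.Agent.Results.MP_6a3f1a_al.AllResidueClasses
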