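import Pool.Agent.Helper3K.Cong2

/-!
# Alperin's weight conjecture in alternating-sum form is a congruence modulo any prime

Let `p` and `q` be primes, `q = p` allowed, and `O` a valuation ring of `ℂ` whose maximal ideal contains
`p`; `p`-blocks, defect groups and block induction are defined by central characters modulo the maximal
ideal of `O` (`Pool.Agent.H254R3.IN`, `Pool.Agent.Q90.WR.IndS`). For a block `B` of a finite group `G`
with `O_p(G) = 1` let `S(B) = ∑_σ (-1)^|σ| k(B_σ)` be the alternating sum of Q1, and let `T(B)` be the
same sum in which only those `θ ∈ Irr(B_σ)` are counted which are `p`-rational (for `p = 2`: of level at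
most `2`, i.e. with values in the field of the roots of unity of order `4m`, `m` odd) and whose number of
Galois conjugates is not divisible by `q`. For `q = 2` the signs do not matter: `T(B)` is even if and
only if the number of the `G`-classes of pairs `(σ, θ)` with these properties is even.

Proof. Let `W = G ≀ C_q` with base group `N = G^q` and let `e` be the idempotent of `B`.
(i) For the sum `S(ê)` of the `S(b)` over the blocks `b` of `W` above `B ⊗ ⋯ ⊗ B` we show
`q S(ê) = S(B)^q + (q² - 1) S(B)` if `q ≠ p`, and `p S(ê) = S(B)^p - S(B)` if `q = p`. For `q ≠ p` all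
chains of `p`-subgroups of `W` lie in `N`. By Clifford theory for the normal subgroup `N ∩ H` of index
`q` in `H`, `q k(H) = k(N ∩ H) + (q² - 1) i(H)`, where `i(H)` is the number of the `H`-invariant
characters; and the function `i` is evaluated with the identity
`∑_υ (-1)^|υ| D(W_υ) = ∑_σ (-1)^|σ| |G_σ|^(1-q) ∑_b D((G_σ ≀ C_q)^b)` (`b ∈ G^(q-1)`), valid for all
functions `D` on the subgroups of `W` which vanish on the subgroups of `N`. For `q = p` we use the
identity for normal subgroups of index `p` (`Pool.Agent.N20.KB.aa_index`), the description of the
complements of `N` and their centralisers, and a Frobenius twist.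
(ii) If the number of Galois conjugates of `B` is divisible by the prime `r`, there is a Galois
automorphism whose powers map `B` to `r` different blocks `B_0, ..., B_{r-1}`; the characters of
`G ≀ C_r` induced from the characters in `B_0 ⊗ ⋯ ⊗ B_{r-1}` form a block `B'` with fewer Galois
conjugates, and `S(B') = S(B)^r`.
(iii) If the number of conjugates of `B` is prime to `q`, then `S(B) ≡ T(B)` modulo `q`: the characters
which are not `p`-rational do not contribute to `S(B)` (`Pool.Agent.R663.GA.sumInd_LE`), and the Galois
orbits whose length is divisible by `q` do not contribute modulo `q`.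
(iv) By (ii) and (iii) the congruences imply that `q` divides all `S(B)`, and if `q^k` divides all
`S(B)`, then so does `q^(k+1)` by (i).
-/

set_option autoImplicit false

noncomputable section

namespace Pool.Agent.Results.MP_6a3f1a_al.CongruenceModAnyPrime

open Pool.Agent.Y63.KR (alternatingSum)
open Pool.Agent.Q90.WR (IndS AdmB)
open Pool.Agent.Q288.MB (numConj)
open Pool.Agent.N85.WM (Wr)
open Pool.Agent.N19.RB (numCh)
open Pool.Agent.R615.LV (IsLevelLE)

/-- The alternating sum `∑_σ (-1)^|σ| k(B_σ)` over representatives `σ` of the `G`-classes of chains of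
nontrivial `p`-subgroups of `G`, the empty chain included; `k(B_σ)` is the number of the irreducible
characters `θ` of `G_σ` with `bl(θ)^G = B`. This is the sum of Q1 if `O_p(G) = 1`. -/
def S (p : ℕ) (O : ValuationSubring ℂ) {G : Type} [Group G] (B : Set (G → ℂ)) : ℤ :=
  alternatingSum p G (fun H => (Nat.card {θ : H → ℂ // θ ∈ IndS O B (Subtype.val : H → G)} : ℤ))

/-- The same sum in which only those characters `θ` are counted which are of `p`-rationality level at
most `a` and whose number of Galois conjugates is not divisible by `q`. -/
def T (p a q : ℕ) (O : ValuationSubring ℂ) {G : Type} [Group G] (B : Set (G → ℂ)) : ℤ :=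
  alternatingSum p G (fun H => (Nat.card {θ : H → ℂ // θ ∈ IndS O B (Subtype.val : H → G) ∧
    IsLevelLE p a θ ∧ ¬ q ∣ numCh θ} : ℤ))

/-- **The alternating-sum form of Alperin's weight conjecture is a congruence modulo any prime.** Let
`p` and `q` be primes (`q = p` is allowed), `a ≥ 0` (`a ≥ 2` if `p = 2`), `R` a set containing `q` and `X`
a class of groups closed under `G ↦ G ≀ C_r` for all primes `r` in `R` (for example all groups and all
primes). `AdmB p O G B` says that `G` is a finite group with `O_p(G) = 1` and `B` a `p`-block of `G` with a
nontrivial defect group. Then `S(B) = 0` for all blocks `B` of groups in `X` with `AdmB p O G B` if and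
only if `q` divides `T(B)` for those of them whose number of Galois conjugates has no prime divisor in
`R` (if `R` contains all primes: for those `B` which are equal to all their Galois conjugates). -/
theorem result (p q : ℕ) [Fact p.Prime] [Fact q.Prime] (a : ℕ) (ha : p = 2 → 2 ≤ a)
    (O : ValuationSubring ℂ) (hpO : (p : ℂ) ∈ O.nonunits) (R : Set ℕ) (hqR : q ∈ R)
    (X : (G : Type) → Group G → Prop)
    (hX : ∀ r ∈ R, ∀ [Fact r.Prime] (G : Type) [i : Group G], X G i → X (Wr r G) inferInstance) :
    (∀ (G : Type) [i : Group G] (B : Set (G → ℂ)), X G i → AdmB p O G B → S p O B = 0) ↔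
      ∀ (G : Type) [i : Group G] (B : Set (G → ℂ)), X G i → AdmB p O G B →
        (∀ r ∈ R, r.Prime → ¬ r ∣ numConj B) → (q : ℤ) ∣ T p a q O B :=
  Pool.Agent.Helper3K.cong_set q hpO a ha R hqR X hX

end Pool.Agent.Results.MP_6a3f1a_al.CongruenceModAnyPrime
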