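import Pool.Agent.Helper3K.Ecc3
import Pool.Agent.Y63.KR.Levels

/-!
# Alperin's weight conjecture in alternating-sum form as a congruence for Euler characteristics

Let `p` be a prime and `O` a valuation ring of `ℂ` whose maximal ideal contains `p`; `p`-blocks, defect
groups and block induction are defined by central characters modulo the maximal ideal of `O`
(`Pool.Agent.H254R3.IN`, `Pool.Agent.Q90.WR.IndS`). For a block `B` of a finite group `G` with
`O_p(G) = 1` let `S(B) = ∑_σ (-1)^|σ| k(B_σ)` be the alternating sum of Q1. We show that Q1 is equivalent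
to congruences in which neither characters nor blocks occur, between
* `R(g) = ∑ (1 - χ(Δ_p(G)^{x,y}))`, over the pairs `(x, y)` with commutator conjugate to `g`, where
  `Δ_p(G)^{x,y}` is the complex of the chains of nontrivial `p`-subgroups of `G` normalised by `x` and `y`,
* `T(g)`, the number of the triples `(x, y, k)` with `k` conjugate to `g` and `k[x,y]` a `p`-element.

Proof. (i) In characteristic `p` the sum of the central characters of all irreducible characters of a
group `H` at a class sum is a trace, the number of the pairs `(C, h)`, `C` a class of `H`, `h` in the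
class, with `h C.out ∈ C`; for the intersection of `H` with the class of `g` in `G` this number is
`|{(x,y) ∈ H × H : [x,y] ~ g}| / |H|`. The alternating sum over the chains is `R(g)/|G|`. Each
irreducible character of `G_σ` has an induced block, so that `R(g)/|G| ≡ ∑_B S(B) ω_B(g)`.
(ii) Similarly `T(g)/|G| ≡ ∑_B z(B) ω_B(g)` (`Pool.Agent.N85.WM.Dzt`), `z(B) = 1` for blocks of defect
zero, `z(B) = 0` otherwise. The functionals `ω_B` are linearly independent, and the idempotents of blocks
vanish on the `p`-singular elements. So for each `G` the congruences `R(g) ≡ T(g)` hold if and only if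
`S(B) ≡ z(B)` modulo `p` for all `B`.
(iii) `S(B) = z(B)` if `B` has defect zero or `O_p(G) ≠ 1`. For the remaining blocks the congruences give
`p | S(B)`. If `p^k` divides all these `S(B)`, so does `p^(k+1)`, because the alternating sums of the
blocks `b` of `G ≀ C_p` above `B ⊗ ⋯ ⊗ B` satisfy `p ∑_b S(b) = S(B)^p - S(B)`
(`Pool.Agent.Helper3K.Ten`).
-/

set_option autoImplicit false

noncomputable section

namespace Pool.Agent.Results.MP_6a3f1a_al.EulerCharacteristicCongruence

open Pool.Agent.Y63.KR (alternatingSum fixedPoset eulerChar)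
open Pool.Agent.Q90.WR (IndS AdmB)
open Pool.Agent.N85.WM (Wr)
open Pool.Agent.H254R3.IN (IsBlock)

/-- The alternating sum `∑_σ (-1)^|σ| k(B_σ)` over representatives `σ` of the `G`-classes of chains of
nontrivial `p`-subgroups of `G`, the empty chain included; `k(B_σ)` is the number of the irreducible
characters `θ` of `G_σ` with `bl(θ)^G = B`. This is the sum of Q1 if `O_p(G) = 1`. -/
def S (p : ℕ) (O : ValuationSubring ℂ) {G : Type} [Group G] (B : Set (G → ℂ)) : ℤ :=
  alternatingSum p G (fun H => (Nat.card {θ : H → ℂ // θ ∈ IndS O B (Subtype.val : H → G)} : ℤ))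

/-- `1 - χ(Δ)`, where `χ(Δ)` is the Euler characteristic of the complex of the chains of nontrivial
`p`-subgroups of `G` which are normalised by `x` and `y`. -/
def e (p : ℕ) {G : Type} [Group G] (x y : G) : ℤ := 1 - eulerChar (fixedPoset p ({x, y} : Set G))

/-- `R(g)`: the sum of the numbers `1 - χ(Δ_p(G)^{x,y})` over the pairs `(x, y)` of elements of `G` with
commutator `xyx⁻¹y⁻¹` conjugate to `g`. -/
def R (p : ℕ) {G : Type} [Group G] (g : G) : ℤ :=
  ∑ᶠ t : {t : G × G // IsConj g (t.1 * t.2 * t.1⁻¹ * t.2⁻¹)}, e p t.1.1 t.1.2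

/-- `T(g)`: the number of the triples `(x, y, k)` of elements of `G` with `k` conjugate to `g` such that
`k xyx⁻¹y⁻¹` has order a power of `p`. -/
def T (p : ℕ) {G : Type} [Group G] (g : G) : ℕ :=
  Nat.card {t : G × G × G // IsConj g t.2.2 ∧
    ∃ j : ℕ, orderOf (t.2.2 * (t.1 * t.2.1 * t.1⁻¹ * t.2.1⁻¹)) = p ^ j}

/-- `O_p(G) = 1` -/
def NoCore (p : ℕ) (G : Type) [Group G] : Prop :=
  ∀ P : Subgroup G, P.Normal → IsPGroup p P → P = ⊥

theorem e_eq (p : ℕ) {G : Type} [Group G] [Finite G] (x y : G) :
    e p x y = Pool.Agent.Y63.KR.W p ({x, y} : Set G) := (Pool.Agent.Y63.KR.W_eq _).symm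

theorem R_eq (p : ℕ) {G : Type} [Group G] [Finite G] (g : G) : R p g = Pool.Agent.Helper3K.RR p g := by
  unfold R Pool.Agent.Helper3K.RR
  exact finsum_congr fun t => e_eq p _ _

theorem T_eq (p : ℕ) {G : Type} [Group G] [Finite G] (g : G) : T p g = Pool.Agent.Helper3K.TT p g :=
  rfl

/-- **Alperin's weight conjecture in alternating-sum form and Euler characteristics.** Let `p` be a
prime, `|G|_p` the `p`-part of `|G|` and `X` a class of groups (for example all groups) closed under
`G ↦ G ≀ C_p`. The following are equivalent: `S(B) = 0` for all blocks `B` with nontrivial defect groups of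
the finite groups `G` in `X` with `O_p(G) = 1` (`AdmB p O G B`); `R(g) ≡ T(g)` modulo `p |G|_p` for all
finite groups `G` in `X` and all `g ∈ G`; the same for the `G` in `X` with `O_p(G) = 1` and the `g ∈ G` of
order prime to `p`. -/
theorem result (p : ℕ) [Fact p.Prime] (O : ValuationSubring ℂ) (hpO : (p : ℂ) ∈ O.nonunits)
    (X : (G : Type) → Group G → Prop)
    (hX : ∀ (G : Type) [i : Group G], X G i → X (Wr p G) inferInstance) :
    List.TFAE [
      ∀ (G : Type) [i : Group G] (B : Set (G → ℂ)), X G i → AdmB p O G B → S p O B = 0,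
      ∀ (G : Type) [i : Group G] [Finite G], X G i → ∀ g : G,
        R p g ≡ T p g [ZMOD (p : ℤ) ^ ((Nat.card G).factorization p + 1)],
      ∀ (G : Type) [i : Group G] [Finite G], X G i → NoCore p G → ∀ g : G, ¬ p ∣ orderOf g →
        R p g ≡ T p g [ZMOD (p : ℤ) ^ ((Nat.card G).factorization p + 1)]] := by
  have h := Pool.Agent.Helper3K.ecc_class (p := p) (O := O) hpO X hX
  have h1 : (∀ (G : Type) [i : Group G] (B : Set (G → ℂ)), X G i → AdmB p O G B → S p O B = 0) ↔
      ∀ (G : Type) [i : Group G] [Finite G], X G i → ∀ g : G,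
        R p g ≡ T p g [ZMOD (p : ℤ) ^ ((Nat.card G).factorization p + 1)] := by
    refine h.1.trans ⟨?_, ?_⟩
    · intro h1 G _ _ hG g
      rw [R_eq]
      exact h1 G hG g
    · intro h1 G _ _ hG g
      rw [← R_eq]
      exact h1 G hG g
  have h2 : (∀ (G : Type) [i : Group G] (B : Set (G → ℂ)), X G i → AdmB p O G B → S p O B = 0) ↔
      ∀ (G : Type) [i : Group G] [Finite G], X G i → NoCore p G → ∀ g : G, ¬ p ∣ orderOf g →
        R p g ≡ T p g [ZMOD (p : ℤ) ^ ((Nat.card G).factorization p + 1)] := by
    refine h.2.trans ⟨?_, ?_⟩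
    · intro h1 G _ _ hG hC g hg
      rw [R_eq]
      exact h1 G hG hC g hg
    · intro h1 G _ _ hG hC g hg
      rw [← R_eq]
      exact h1 G hG hC g hg
  tfae_have 1 ↔ 2 := h1
  tfae_have 1 ↔ 3 := h2
  tfae_finish

end Pool.Agent.Results.MP_6a3f1a_al.EulerCharacteristicCongruence
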