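import Pool.Agent.Helper3K.Grow

/-!
# A one-sided subpolynomial bound for the alternating sums implies Alperin's weight conjecture

Let `p` be a prime and `O` a valuation ring of `ℂ` whose maximal ideal contains `p`; `p`-blocks, defect
groups and block induction are defined by central characters modulo the maximal ideal of `O`
(`Pool.Agent.H254R3.IN`, `Pool.Agent.Q90.WR.IndS`). For a block `B` of a finite group `G` with
`O_p(G) = 1` let `S(B) = ∑_σ (-1)^|σ| k(B_σ)` be the alternating sum of Q1. Direct products only show that
a bound `S(B) ≤ |G|^{o(1)}` implies `S(B) ∈ {0, 1, -1}`. Here the values `1` and `-1` are excluded too.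

Proof. Let `q ≠ p` be a prime and `B` a block of `G` with `O_p(G) = 1` and nontrivial defect groups.
(i) `B` contains two different characters `ψ`, `ψ'`: the coefficients of its idempotent vanish on the
`p`-singular elements, so that a unique character in `B` would vanish there and have defect zero. The
character `ψ ⊗ ψ' ⊗ ⋯ ⊗ ψ'` of the base group of `W = G ≀ C_q` is not invariant, hence lies under exactly
one irreducible character of `W`, and each block of `W` above `B ⊗ ⋯ ⊗ B` contains a character above it.
So the block `b` above `B ⊗ ⋯ ⊗ B` is unique.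
(ii) `q S(b) = S(B)^q + (q² - 1) S(B)`: all chains of `p`-subgroups of `W` lie in the base group `N`; by
Clifford theory `q k(H) = k(N ∩ H) + (q² - 1) i(H)` for the normal subgroup `N ∩ H` of index `q` in `H`,
`i(H)` the number of the invariant characters, and the contribution of `i` is computed with the identity
`∑_υ (-1)^|υ| D(W_υ) = ∑_σ (-1)^|σ| |G_σ|^(1-q) ∑_b D((G_σ ≀ C_q)^b)` (`Pool.Agent.Helper3K.Func`).
(iii) If `S(B) ≥ 1`, then `S(b) ≥ q S(B)`, and iterating (ii) gives groups of order at most `M^(q^k)` with
blocks for which the sum is at least `2^(q^k)`. If `S(B) ≤ -1` and `q` is odd, all signs change. The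
alternating sum of `B ⊗ B` is `S(B)²`.
-/

set_option autoImplicit false

noncomputable section

namespace Pool.Agent.Results.MP_6a3f1a_al.SubpolynomialBound

open Pool.Agent.Y63.KR (alternatingSum)
open Pool.Agent.Q90.WR (IndS AdmB)
open Pool.Agent.N85.WM (Wr)

/-- The alternating sum `∑_σ (-1)^|σ| k(B_σ)` over representatives `σ` of the `G`-classes of chains of
nontrivial `p`-subgroups of `G`, the empty chain included; `k(B_σ)` is the number of the irreducible
characters `θ` of `G_σ` with `bl(θ)^G = B`. This is the sum of Q1 if `O_p(G) = 1`. -/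
def S (p : ℕ) (O : ValuationSubring ℂ) {G : Type} [Group G] (B : Set (G → ℂ)) : ℤ :=
  alternatingSum p G (fun H => (Nat.card {θ : H → ℂ // θ ∈ IndS O B (Subtype.val : H → G)} : ℤ))

/-- **A one-sided subpolynomial bound implies the alternating-sum form of Alperin's weight conjecture.**
Let `p ≠ q` be primes and `X` a class of groups (for example all groups) which is closed under
`G ↦ G × G` and `G ↦ G ≀ C_q`. `AdmB p O G B` says that `G` is a finite group with `O_p(G) = 1` and `B` a
`p`-block of `G` with a nontrivial defect group. Then `S(B) = 0` for all these blocks of groups in `X` if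
and only if for each `ε > 0` there is `C` such that `S(B) ≤ C |G|^ε` for all of them. -/
theorem result (p q : ℕ) [Fact p.Prime] [Fact q.Prime] (hpq : p ≠ q) (O : ValuationSubring ℂ)
    (hpO : (p : ℂ) ∈ O.nonunits) (X : (G : Type) → Group G → Prop)
    (hX : ∀ (G : Type) [i : Group G], X G i → X (Wr q G) inferInstance)
    (hX2 : ∀ (G : Type) [i : Group G], X G i → X (G × G) inferInstance) :
    (∀ (G : Type) [i : Group G] (B : Set (G → ℂ)), X G i → AdmB p O G B → S p O B = 0) ↔
      ∀ ε : ℝ, 0 < ε → ∃ C : ℝ, ∀ (G : Type) [i : Group G] (B : Set (G → ℂ)), X G i →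
        AdmB p O G B → (S p O B : ℝ) ≤ C * (Nat.card G : ℝ) ^ ε :=
  Pool.Agent.Helper3K.growth_zero q hpO hpq X hX hX2

end Pool.Agent.Results.MP_6a3f1a_al.SubpolynomialBound
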